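import Pool.Agent.Y424.DL.Conv
import Pool.Agent.Y424.SP.Asym

/-!
# Asymptotic bounds
-/

set_option autoImplicit false

namespace Pool.Agent.Y424.DL

open Finset Module
open Pool.Agent.Y424.SP (QProtocol tow_eq)
open Pool.Agent.TH360.SR (SliceRankLE Homogeneous tow)
open Pool.Agent.TH138.NF (nat_le_rpow two_rpow_ge)

theorem NM_le (q m w r M Y : ℕ) (hM : M ≤ 2 ^ Y) (hq : 1 ≤ q) (hm : 1 ≤ m) :
    NM q m w r M ≤ 2 ^ ((4 + Y + q * (m * (w + 2)) ^ (r + 1)) *
      (4 * (m * (w + 2))) ^ (r + 1)) := by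
  unfold NM
  rw [pow_mul 2]
  apply Nat.pow_le_pow_left
  have h1 : q ≤ 2 ^ q := Nat.lt_two_pow_self.le
  have h2 : (w + 1) * (w + 2) ^ r * m ≤ (m * (w + 2)) ^ (r + 1) := by
    rw [mul_pow]
    calc (w + 1) * (w + 2) ^ r * m ≤ (w + 2) * (w + 2) ^ r * m :=
          Nat.mul_le_mul_right _ (Nat.mul_le_mul_right _ (by omega))
      _ = m * (w + 2) ^ (r + 1) := by ring
      _ ≤ m ^ (r + 1) * (w + 2) ^ (r + 1) :=
          Nat.mul_le_mul_right _ (Nat.le_self_pow (by omega) _)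
  have h3 : q ^ ((w + 1) * (w + 2) ^ r * m) ≤ 2 ^ (q * (m * (w + 2)) ^ (r + 1)) := by
    calc q ^ ((w + 1) * (w + 2) ^ r * m) ≤
        q ^ ((m * (w + 2)) ^ (r + 1)) := Nat.pow_le_pow_right hq h2
      _ ≤ (2 ^ q) ^ ((m * (w + 2)) ^ (r + 1)) := Nat.pow_le_pow_left h1 _
      _ = _ := by rw [← pow_mul]
  calc 12 * M * q ^ ((w + 1) * (w + 2) ^ r * m) ≤
      2 ^ 4 * 2 ^ Y * 2 ^ (q * (m * (w + 2)) ^ (r + 1)) :=
        Nat.mul_le_mul (Nat.mul_le_mul (by norm_num) hM) h3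
    _ = _ := by rw [← pow_add, ← pow_add]

/-- The number of vertices is large enough. -/
theorem fit (s q : ℕ) (hq : 1 ≤ q) (ε : ℝ) (hε : 0 < ε) : ∃ δ : ℝ, 0 < δ ∧ ∃ n₀ : ℕ,
    ∀ n : ℕ, n₀ ≤ n → ∀ w N m M : ℕ, 1 ≤ m → tow (s + 2) (ε * n) ≤ N →
      (m : ℝ) ≤ 2 ^ (δ * n) → (w : ℝ) + 1 ≤ Real.logb 2 N ^ δ →
      (M : ℝ) ≤ tow (s + 2) (ε / 8 * n) → NM q m w (s + 2) M ≤ N := by
  -- the smaller tower
  have hsmall : ∃ n₂ : ℕ, ∀ n : ℕ, n₂ ≤ n → 4 * tow s (ε / 8 * n) ≤ tow s (ε * n) := by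
    cases s with
    | zero =>
      refine ⟨0, fun n _ => ?_⟩
      simp only [tow]
      have : (0 : ℝ) ≤ ε * n := by positivity
      linarith
    | succ t =>
      obtain ⟨n₂, h2⟩ := Pool.Agent.TH138.NF.tow_big t 4 (ε / 8) ε (by positivity) (by linarith)
      refine ⟨n₂, fun n hn => ?_⟩
      have := h2 n hn
      rw [tow_eq, tow_eq] at this
      exact_mod_cast this
  obtain ⟨n₂, h2⟩ := hsmall
  set G : ℝ := (2 * s + 6) * (1 / ε + 1) with hG
  have hG0 : 0 < G := by positivity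
  set K₀ : ℝ := (5 + q) + 2 * (s + 3) + (2 * s + 6) with hK₀
  have hK₀0 : 0 < K₀ := by positivity
  obtain ⟨n₃, h3⟩ := exists_nat_gt (4 * K₀ / ε)
  refine ⟨1 / (4 * G), by positivity, max n₂ (max n₃ 1), ?_⟩
  intro n hn w N m M hm1 hN hm hw hM
  have hn2 : n₂ ≤ n := (le_max_left _ _).trans hn
  have hn3 : n₃ ≤ n := (le_max_left _ _).trans ((le_max_right _ _).trans hn)
  have hn4 : 1 ≤ n := (le_max_right _ _).trans ((le_max_right _ _).trans hn)
  have hnR : (1 : ℝ) ≤ n := by exact_mod_cast hn4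
  set δ := 1 / (4 * G) with hδ
  have hδ0 : 0 < δ := by positivity
  -- logarithms
  have hN0 : (0 : ℝ) < N := by
    refine lt_of_lt_of_le ?_ hN
    show (0 : ℝ) < 2 ^ _
    positivity
  set Λ := Real.logb 2 N with hΛ
  have hL : tow (s + 1) (ε * n) ≤ Λ := by
    rw [hΛ, Real.le_logb_iff_rpow_le (by norm_num) hN0]
    exact hN
  have hΛ0 : 0 < Λ := by
    refine lt_of_lt_of_le ?_ hL
    show (0 : ℝ) < 2 ^ _
    positivity
  set lam := Real.logb 2 Λ with hlam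
  have hlamΛ : (2 : ℝ) ^ lam = Λ := Real.rpow_logb (by norm_num) (by norm_num) hΛ0
  have hL2 : tow s (ε * n) ≤ lam := by
    rw [hlam, Real.le_logb_iff_rpow_le (by norm_num) hΛ0]
    exact hL
  have hεn : ε * n ≤ lam := by
    refine le_trans ?_ hL2
    have := Pool.Agent.TH138.NF.le_tow s (ε * n)
    rw [tow_eq] at this
    exact this
  have hlam0 : 0 < lam := lt_of_lt_of_le (by positivity) hεn
  have hK : K₀ ≤ lam / 4 := by
    have h4 : 4 * K₀ / ε < n := lt_of_lt_of_le h3 (by exact_mod_cast hn3)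
    rw [div_lt_iff₀ hε] at h4
    nlinarith
  have hτ : tow s (ε / 8 * n) ≤ lam / 4 := by
    have := h2 n hn2
    linarith
  -- `A`
  set A : ℕ := m * (w + 2) with hA
  have hA1 : (1 : ℝ) ≤ A := by
    have : 1 ≤ A := Nat.mul_pos hm1 (by omega)
    exact_mod_cast this
  have hAle : (A : ℝ) ≤ 2 ^ (1 + (1 / ε + 1) * δ * lam) := by
    have g1 : (m : ℝ) ≤ 2 ^ (1 / ε * δ * lam) := by
      refine hm.trans (Real.rpow_le_rpow_of_exponent_le (by norm_num) ?_)
      calc δ * n = 1 / ε * δ * (ε * n) := by field_simp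
        _ ≤ 1 / ε * δ * lam := mul_le_mul_of_nonneg_left hεn (by positivity)
    have g3 : (w : ℝ) + 2 ≤ 2 ^ (1 + δ * lam) := by
      have g4 : Λ ^ δ = 2 ^ (δ * lam) := by
        rw [← hlamΛ, ← Real.rpow_mul (by norm_num), mul_comm]
      rw [g4] at hw
      rw [Real.rpow_add (by norm_num), Real.rpow_one]
      have : (0 : ℝ) ≤ w := Nat.cast_nonneg w
      linarith
    rw [hA]
    push_cast
    calc (m : ℝ) * ((w : ℝ) + 2) ≤
        2 ^ (1 / ε * δ * lam) * 2 ^ (1 + δ * lam) :=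
          mul_le_mul g1 g3 (by positivity) (by positivity)
      _ = 2 ^ (1 + (1 / ε + 1) * δ * lam) := by
          rw [← Real.rpow_add (by norm_num)]
          congr 1
          ring
  have hApow : (A : ℝ) ^ (2 * s + 6) ≤ 2 ^ ((2 * s + 6) + lam / 4) := by
    calc (A : ℝ) ^ (2 * s + 6) ≤ (2 ^ (1 + (1 / ε + 1) * δ * lam)) ^ (2 * s + 6) :=
          pow_le_pow_left₀ (by positivity) hAle _
      _ = 2 ^ ((1 + (1 / ε + 1) * δ * lam) * (2 * s + 6)) := by
          rw [← Real.rpow_natCast, ← Real.rpow_mul (by norm_num)]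
          push_cast
          rfl
      _ ≤ 2 ^ ((2 * s + 6) + lam / 4) := by
          apply Real.rpow_le_rpow_of_exponent_le (by norm_num)
          have e1 : (1 + (1 / ε + 1) * δ * lam) * (2 * s + 6) =
              (2 * s + 6) + G * δ * lam := by
            rw [hG]
            ring
          rw [e1]
          have e2 : G * δ = 1 / 4 := by
            rw [hδ]
            field_simp
          rw [e2]
          linarith
  -- the bound
  set τ := tow (s + 1) (ε / 8 * n) with hτdef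
  have hτ2 : τ = 2 ^ tow s (ε / 8 * n) := rfl
  have hτ1 : 1 ≤ τ := by
    rw [hτ2]
    apply Real.one_le_rpow (by norm_num)
    have h5 := Pool.Agent.TH138.NF.le_tow s (ε / 8 * n)
    rw [tow_eq] at h5
    exact le_trans (by positivity) h5
  -- an integer between
  have hY : ∃ Y : ℕ, M ≤ 2 ^ Y ∧ (Y : ℝ) ≤ τ + 1 := by
    refine ⟨⌈τ⌉₊, ?_, (Nat.ceil_lt_add_one (by linarith)).le⟩
    have h6 : (M : ℝ) ≤ 2 ^ ((⌈τ⌉₊ : ℕ) : ℝ) := by
      refine hM.trans ?_
      show (2 : ℝ) ^ _ ≤ _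
      exact Real.rpow_le_rpow_of_exponent_le (by norm_num) (Nat.le_ceil τ)
    rw [Real.rpow_natCast] at h6
    exact_mod_cast h6
  obtain ⟨Y, hMY, hYτ⟩ := hY
  refine (NM_le q m w (s + 2) M Y hMY hq hm1).trans ?_
  rw [← hA]
  have hfin : (((4 + Y + q * A ^ (s + 2 + 1)) * (4 * A) ^ (s + 2 + 1) : ℕ) : ℝ) ≤ Λ := by
    push_cast
    have e3 : s + 2 + 1 = s + 3 := rfl
    rw [e3]
    have hAs : (1 : ℝ) ≤ (A : ℝ) ^ (s + 3) := one_le_pow₀ hA1
    have h7 : (4 : ℝ) + Y + q * (A : ℝ) ^ (s + 3) ≤ (6 + q) * ((A : ℝ) ^ (s + 3) * τ) := by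
      have a1 : 1 ≤ (A : ℝ) ^ (s + 3) * τ := one_le_mul_of_one_le_of_one_le hAs hτ1
      have a2 : τ ≤ (A : ℝ) ^ (s + 3) * τ := le_mul_of_one_le_left (by linarith) hAs
      have a3 : (A : ℝ) ^ (s + 3) ≤ (A : ℝ) ^ (s + 3) * τ :=
        le_mul_of_one_le_right (by positivity) hτ1
      have a4 : (0 : ℝ) ≤ q := Nat.cast_nonneg q
      have a5 := mul_le_mul_of_nonneg_left a3 a4
      have a6 : (6 + (q : ℝ)) * ((A : ℝ) ^ (s + 3) * τ) =
          6 * ((A : ℝ) ^ (s + 3) * τ) + q * ((A : ℝ) ^ (s + 3) * τ) := by ring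
      linarith
    calc ((4 : ℝ) + Y + q * (A : ℝ) ^ (s + 3)) * (4 * (A : ℝ)) ^ (s + 3) ≤
        ((6 + q) * ((A : ℝ) ^ (s + 3) * τ)) * (4 * (A : ℝ)) ^ (s + 3) :=
          mul_le_mul_of_nonneg_right h7 (by positivity)
      _ = (6 + q) * 4 ^ (s + 3) * (A : ℝ) ^ (2 * s + 6) * τ := by
          rw [mul_pow]
          ring
      _ ≤ 2 ^ ((5 + q : ℝ) + 2 * (s + 3)) * 2 ^ ((2 * s + 6) + lam / 4) * 2 ^ (lam / 4) := by
          apply mul_le_mul _ _ (by positivity) (by positivity)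
          · apply mul_le_mul _ hApow (by positivity) (by positivity)
            rw [Real.rpow_add (by norm_num)]
            apply mul_le_mul _ _ (by positivity) (by positivity)
            · have h8 : (6 + q : ℝ) ≤ 2 ^ (5 + q : ℝ) := by
                have h9 : (6 + q : ℕ) ≤ 2 ^ (5 + q) := by
                  have := Nat.lt_two_pow_self (n := 5 + q)
                  omega
                have h10 : ((6 + q : ℕ) : ℝ) ≤ ((2 ^ (5 + q) : ℕ) : ℝ) := by exact_mod_cast h9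
                push_cast at h10
                rw [← Real.rpow_natCast] at h10
                push_cast at h10
                exact h10
              exact h8
            · rw [show (2 : ℝ) * (s + 3) = ((2 * (s + 3) : ℕ) : ℝ) by push_cast; ring,
                Real.rpow_natCast, pow_mul]
              norm_num
          · rw [hτ2]
            exact Real.rpow_le_rpow_of_exponent_le (by norm_num) hτ
      _ = 2 ^ (K₀ + lam / 4 + lam / 4) := by
          rw [← Real.rpow_add (by norm_num), ← Real.rpow_add (by norm_num)]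
          congr 1
          rw [hK₀]
          ring
      _ ≤ 2 ^ lam := by
          apply Real.rpow_le_rpow_of_exponent_le (by norm_num)
          linarith
      _ = Λ := hlamΛ
  rw [hΛ, Real.le_logb_iff_rpow_le (by norm_num) hN0, Real.rpow_natCast] at hfin
  exact_mod_cast hfin

theorem BB_pos {W T : ℕ} (hT : 1 ≤ T) (s : ℕ) : 1 ≤ BB W T s := by
  cases s with
  | zero => exact hT
  | succ s => exact Nat.one_le_iff_ne_zero.2 (by unfold BB; positivity)

theorem BB_le (s : ℕ) : ∀ ε : ℝ, 0 < ε → ∃ δ : ℝ, 0 < δ ∧ ∃ n₀ : ℕ, ∀ n : ℕ, n₀ ≤ n →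
    ∀ W T : ℕ, 1 ≤ T → (W : ℝ) + 1 ≤ 2 ^ (δ * n) → (T : ℝ) ≤ 2 ^ (δ * n) →
      (BB W T s : ℝ) ≤ tow (s + 1) (ε * n) := by
  induction s with
  | zero =>
    intro ε hε
    refine ⟨ε, hε, 0, fun n _ W T _ _ hT => ?_⟩
    simp only [BB, tow]
    exact hT
  | succ s ih =>
    intro ε hε
    obtain ⟨δ, hδ, n₀, h0⟩ := ih (ε / 4) (by positivity)
    have hexp : ∃ n₁ : ℕ, ∀ n : ℕ, n₁ ≤ n → ∀ b : ℝ, b ≤ ε / 4 * n →
        b + (s + 2) + (s + 1) * tow s (ε / 4 * n) ≤ tow s (ε * n) := by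
      cases s with
      | zero =>
        obtain ⟨a, ha⟩ := exists_nat_gt (4 / ε)
        refine ⟨a, fun n hn b hb => ?_⟩
        have hn1 : (a : ℝ) ≤ n := by exact_mod_cast hn
        have : 4 < ε * n := by
          rw [div_lt_iff₀ hε] at ha
          nlinarith
        simp only [tow]
        push_cast
        linarith
      | succ t =>
        obtain ⟨n₂, h2⟩ := Pool.Agent.TH138.NF.tow_big t (2 * t + 6) (ε / 4) ε (by positivity)
          (by linarith)
        obtain ⟨a, ha⟩ := exists_nat_gt (4 / ε)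
        refine ⟨max n₂ a, fun n hn b hb => ?_⟩
        have h3 := h2 n ((le_max_left _ _).trans hn)
        have hn1 : (a : ℝ) ≤ n := by exact_mod_cast (le_max_right _ _).trans hn
        have h4 : 1 ≤ ε / 4 * n := by
          rw [div_lt_iff₀ hε] at ha
          nlinarith
        have h5 := Pool.Agent.TH138.NF.le_tow (t + 1) (ε / 4 * n)
        rw [tow_eq, tow_eq] at h3
        rw [tow_eq] at h5
        set T := tow (t + 1) (ε / 4 * n) with hT
        push_cast at h3 ⊢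
        have ht : (0 : ℝ) ≤ t := Nat.cast_nonneg t
        nlinarith
    obtain ⟨n₁, h1⟩ := hexp
    refine ⟨min δ (ε / 4), by positivity, max (max n₀ n₁) 1, fun n hn W T hT1 hW hT => ?_⟩
    have hn0 : n₀ ≤ n := (le_max_left _ _).trans ((le_max_left _ _).trans hn)
    have hn1 : n₁ ≤ n := (le_max_right _ _).trans ((le_max_left _ _).trans hn)
    have hnn : (0 : ℝ) ≤ n := Nat.cast_nonneg n
    have hle1 : min δ (ε / 4) * n ≤ δ * n := mul_le_mul_of_nonneg_right (min_le_left _ _) hnn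
    have hle2 : min δ (ε / 4) * n ≤ ε / 4 * n :=
      mul_le_mul_of_nonneg_right (min_le_right _ _) hnn
    have hmono : ∀ {x y : ℝ}, x ≤ y → (2 : ℝ) ^ x ≤ 2 ^ y := fun h =>
      Real.rpow_le_rpow_of_exponent_le (by norm_num) h
    have hk := h0 n hn0 W T hT1 (hW.trans (hmono hle1)) (hT.trans (hmono hle1))
    have hk1 : 1 ≤ BB W T s := BB_pos hT1 s
    have hE := h1 n hn1 (ε / 4 * n) le_rfl
    have hW' : (W : ℝ) + 1 ≤ 2 ^ (ε / 4 * n) := hW.trans (hmono hle2)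
    set k := BB W T s with hkd
    -- the exponent
    have e1 : (BB W T (s + 1) : ℝ) =
        (2 : ℝ) ^ (((k * (1 + W * ((s + 1) * k ^ s)) : ℕ)) : ℝ) := by
      rw [Real.rpow_natCast]
      simp only [BB, ← hkd]
      push_cast
      rw [← pow_succ', ← pow_mul]
      ring_nf
    rw [e1]
    change (2 : ℝ) ^ _ ≤ 2 ^ (tow (s + 1) (ε * n))
    apply Real.rpow_le_rpow_of_exponent_le (by norm_num)
    have e2 : k * (1 + W * ((s + 1) * k ^ s)) ≤ (W + 1) * (s + 2) * k ^ (s + 1) := by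
      have h3 : 1 ≤ k ^ s := Nat.one_le_pow _ _ hk1
      calc k * (1 + W * ((s + 1) * k ^ s)) ≤
            k * (k ^ s + W * ((s + 1) * k ^ s)) := by gcongr
        _ = (1 + W * (s + 1)) * k ^ (s + 1) := by ring
        _ ≤ _ := by
            apply Nat.mul_le_mul_right
            nlinarith
    have e3 : (((W + 1) * (s + 2) * k ^ (s + 1) : ℕ) : ℝ) ≤
        2 ^ (ε / 4 * n + (s + 2) + (s + 1) * tow s (ε / 4 * n)) := by
      push_cast
      rw [Real.rpow_add (by norm_num), Real.rpow_add (by norm_num)]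
      have f1 : ((s : ℝ) + 2) ≤ 2 ^ ((s : ℝ) + 2) := two_rpow_ge _
      have f2 : (k : ℝ) ^ (s + 1) ≤ 2 ^ (((s : ℝ) + 1) * tow s (ε / 4 * n)) := by
        have f3 : (k : ℝ) ≤ 2 ^ (tow s (ε / 4 * n)) := hk
        calc (k : ℝ) ^ (s + 1) ≤ (2 ^ (tow s (ε / 4 * n))) ^ (s + 1) :=
              pow_le_pow_left₀ (Nat.cast_nonneg _) f3 _
          _ = 2 ^ (((s : ℝ) + 1) * tow s (ε / 4 * n)) := by
              rw [← Real.rpow_natCast, ← Real.rpow_mul (by norm_num)]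
              push_cast
              ring_nf
      gcongr
    calc ((k * (1 + W * ((s + 1) * k ^ s)) : ℕ) : ℝ)
        ≤ (((W + 1) * (s + 2) * k ^ (s + 1) : ℕ) : ℝ) := by exact_mod_cast e2
      _ ≤ _ := e3
      _ ≤ 2 ^ (tow s (ε * n)) := Real.rpow_le_rpow_of_exponent_le (by norm_num) hE
      _ = tow (s + 1) (ε * n) := rfl

/-- an estimate for binomial coefficients -/
theorem choose_le (N a j : ℕ) :
    ((N.choose a : ℕ) : ℝ) ≤ 2 ^ ((j : ℝ) * a + 2 * N / 2 ^ j) := by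
  have h2 : (0 : ℝ) < 2 ^ j := by positivity
  have h1 : ((N.choose a : ℕ) : ℝ) * ((1 : ℝ) / 2 ^ j) ^ a ≤ (1 / 2 ^ j + 1) ^ N := by
    rcases Nat.lt_or_ge N a with h | h
    · rw [Nat.choose_eq_zero_of_lt h]
      simp only [Nat.cast_zero, zero_mul]
      positivity
    · rw [add_pow]
      have h3 : ∀ i ∈ range (N + 1), (0 : ℝ) ≤
          (1 / 2 ^ j) ^ i * 1 ^ (N - i) * ((N.choose i : ℕ) : ℝ) := fun i _ => by positivity
      have := single_le_sum h3 (mem_range.2 (Nat.lt_succ_of_le h))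
      simp only [one_pow, mul_one] at this ⊢
      rw [mul_comm]
      exact this
  have h3 : ((1 : ℝ) / 2 ^ j + 1) ≤ 2 ^ ((2 : ℝ) / 2 ^ j) := by
    have h4 := Real.add_one_le_exp ((1 : ℝ) / 2 ^ j)
    refine h4.trans ?_
    rw [Real.rpow_def_of_pos (by norm_num)]
    apply Real.exp_le_exp.2
    have h5 : (1 / 2 : ℝ) ≤ Real.log 2 := by
      have := Real.log_two_gt_d9
      linarith
    calc (1 : ℝ) / 2 ^ j = (1 / 2) * (2 / 2 ^ j) := by ring
      _ ≤ Real.log 2 * (2 / 2 ^ j) := mul_le_mul_of_nonneg_right h5 (by positivity)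
  have h6 : ((N.choose a : ℕ) : ℝ) ≤ ((2 : ℝ) ^ j) ^ a * (1 / 2 ^ j + 1) ^ N := by
    calc ((N.choose a : ℕ) : ℝ) =
        ((2 : ℝ) ^ j) ^ a * (((N.choose a : ℕ) : ℝ) * ((1 : ℝ) / 2 ^ j) ^ a) := by
          rw [one_div, inv_pow]
          field_simp
      _ ≤ _ := mul_le_mul_of_nonneg_left h1 (by positivity)
  refine h6.trans ?_
  calc ((2 : ℝ) ^ j) ^ a * (1 / 2 ^ j + 1) ^ N ≤ ((2 : ℝ) ^ j) ^ a * (2 ^ ((2 : ℝ) / 2 ^ j)) ^ N :=
        mul_le_mul_of_nonneg_left (pow_le_pow_left₀ (by positivity) h3 _) (by positivity)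
    _ = _ := by
      rw [← pow_mul, ← Real.rpow_natCast, ← Real.rpow_natCast, ← Real.rpow_mul (by norm_num),
        ← Real.rpow_add (by norm_num)]
      congr 1
      push_cast
      ring

/-- The base. -/
theorem base_le (ε : ℝ) (hε : 0 < ε) : ∃ j : ℕ, ∃ δ : ℝ, 0 < δ ∧ ∃ n₀ : ℕ, ∀ n : ℕ, n₀ ≤ n →
    ∀ W : ℕ, (W : ℝ) + 1 ≤ 2 ^ (δ * n) →
      (((2 * (W + 1)) ^ (2 * j) * ((n / 2 ^ j + 1) + n).choose (n / 2 ^ j + 1) : ℕ) : ℝ) ≤
        2 ^ (ε * n) := by
  -- the choice of `j`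
  have hj : ∃ j : ℕ, ((j : ℝ) + 4) / 2 ^ j ≤ ε / 4 := by
    obtain ⟨a, ha⟩ := exists_nat_gt (32 / ε)
    refine ⟨2 * a, ?_⟩
    have h1 : (a : ℝ) ≤ 2 ^ a := by exact_mod_cast Nat.lt_two_pow_self.le
    have h2 : (2 : ℝ) * a + 4 ≤ 8 * 2 ^ a := by
      have : (1 : ℝ) ≤ 2 ^ a := one_le_pow₀ (by norm_num)
      linarith
    have h3 : 32 < ε * a := by
      rw [div_lt_iff₀ hε] at ha
      linarith
    have h4 : 32 ≤ ε * 2 ^ a := by nlinarith
    push_cast
    rw [pow_mul', sq, div_le_iff₀ (by positivity)]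
    nlinarith [pow_pos (two_pos : (0 : ℝ) < 2) a]
  obtain ⟨j, hj⟩ := hj
  obtain ⟨a, ha⟩ := exists_nat_gt (4 * (3 * (j : ℝ) + 4) / ε)
  refine ⟨j, ε / (8 * (j + 1)), by positivity, max a 1, fun n hn W hW => ?_⟩
  have hna : a ≤ n := (le_max_left _ _).trans hn
  have hn1 : 1 ≤ n := (le_max_right _ _).trans hn
  have hnR : (1 : ℝ) ≤ n := by exact_mod_cast hn1
  have hj0 : (0 : ℝ) ≤ j := Nat.cast_nonneg j
  have h2j : (1 : ℝ) ≤ 2 ^ j := one_le_pow₀ (by norm_num)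
  have h1 : (((2 * (W + 1)) ^ (2 * j) : ℕ) : ℝ) ≤ 2 ^ (2 * (j : ℝ) + ε / 4 * n) := by
    push_cast
    calc ((2 : ℝ) * (W + 1)) ^ (2 * j) ≤ (2 * 2 ^ (ε / (8 * (j + 1)) * n)) ^ (2 * j) :=
          pow_le_pow_left₀ (by positivity) (mul_le_mul_of_nonneg_left hW (by norm_num)) _
      _ = 2 ^ ((1 + ε / (8 * (j + 1)) * n) * (2 * j)) := by
          have e : (2 : ℝ) * 2 ^ (ε / (8 * (j + 1)) * n) = 2 ^ (1 + ε / (8 * (j + 1)) * n) := by
            rw [Real.rpow_add (by norm_num), Real.rpow_one]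
          rw [e, ← Real.rpow_natCast, ← Real.rpow_mul (by norm_num)]
          push_cast
          rfl
      _ ≤ 2 ^ (2 * (j : ℝ) + ε / 4 * n) := by
          apply Real.rpow_le_rpow_of_exponent_le (by norm_num)
          have e : ε / (8 * (j + 1)) * n * (2 * j) = ε / 4 * n * (j / (j + 1)) := by
            field_simp
            ring
          have e2 : (j : ℝ) / (j + 1) ≤ 1 := by
            rw [div_le_one (by positivity)]
            linarith
          have e3 : ε / 4 * n * (j / (j + 1)) ≤ ε / 4 * n * 1 :=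
            mul_le_mul_of_nonneg_left e2 (by positivity)
          nlinarith
  have h2 := choose_le ((n / 2 ^ j + 1) + n) (n / 2 ^ j + 1) j
  have hdiv : (((n / 2 ^ j : ℕ)) : ℝ) ≤ n / 2 ^ j := by
    have := @Nat.cast_div_le ℝ _ _ _ n (2 ^ j)
    push_cast at this
    exact this
  have hdiv2 : (n : ℝ) / 2 ^ j ≤ n := div_le_self (by positivity) h2j
  have h3 : (j : ℝ) * (((n / 2 ^ j + 1 : ℕ)) : ℝ) +
      2 * (((n / 2 ^ j + 1) + n : ℕ) : ℝ) / 2 ^ j ≤ ε / 4 * n + (j + 4) := by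
    push_cast
    have g1 : (j : ℝ) * (((n / 2 ^ j : ℕ) : ℝ) + 1) ≤ j * (n / 2 ^ j + 1) :=
      mul_le_mul_of_nonneg_left (by linarith) hj0
    have g2 : 2 * ((((n / 2 ^ j : ℕ) : ℝ) + 1) + n) / 2 ^ j ≤ 2 * (2 * n + 1) / 2 ^ j := by
      apply div_le_div_of_nonneg_right _ (by positivity)
      linarith
    have g3 : (j : ℝ) * (n / 2 ^ j + 1) + 2 * (2 * n + 1) / 2 ^ j =
        ((j : ℝ) + 4) / 2 ^ j * n + j + 2 / 2 ^ j := by
      field_simp
      ring
    have g4 : ((j : ℝ) + 4) / 2 ^ j * n ≤ ε / 4 * n := mul_le_mul_of_nonneg_right hj (by positivity)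
    have g5 : (2 : ℝ) / 2 ^ j ≤ 2 := div_le_self (by norm_num) h2j
    linarith
  push_cast at h1 h2 h3 ⊢
  calc ((2 : ℝ) * (W + 1)) ^ (2 * j) *
        ((((n / 2 ^ j + 1) + n).choose (n / 2 ^ j + 1) : ℕ) : ℝ) ≤
      2 ^ (2 * (j : ℝ) + ε / 4 * n) * 2 ^ (ε / 4 * n + (j + 4)) := by
        apply mul_le_mul h1 (h2.trans _) (by positivity) (by positivity)
        exact Real.rpow_le_rpow_of_exponent_le (by norm_num) h3
    _ = 2 ^ ((2 * (j : ℝ) + ε / 4 * n) + (ε / 4 * n + (j + 4))) := by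
        rw [← Real.rpow_add (by norm_num)]
    _ ≤ 2 ^ (ε * n) := by
        apply Real.rpow_le_rpow_of_exponent_le (by norm_num)
        have h4 : 4 * (3 * (j : ℝ) + 4) < ε * n := by
          rw [div_lt_iff₀ hε] at ha
          have : (a : ℝ) ≤ n := by exact_mod_cast hna
          nlinarith
        nlinarith

/-- **Decision lists.** -/
theorem low (s q : ℕ) (hq : 1 ≤ q) (ε : ℝ) (hε : 0 < ε) : ∃ δ : ℝ, 0 < δ ∧ ∃ n₀ : ℕ,
    ∀ n : ℕ, n₀ ≤ n → ∀ w N : ℕ, tow (s + 2) (ε * n) ≤ N → (w : ℝ) + 1 ≤ Real.logb 2 N ^ δ →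
      ∀ (l : List (QProtocol Bool q (s + 2) × Bool)) (d : Bool) (c : Finset ℕ → Bool),
        (l.length : ℝ) ≤ 2 ^ (δ * n) → (∀ p ∈ l, (p.1.steps : ℝ) ≤ δ * n ∧ p.1.Width w N) →
        (∀ x : Fin (s + 3) → ℕ, StrictMono x → (∀ i, x i < N) →
          colourOf l d x = c (univ.image x)) →
        ∃ S ⊆ range N, S.card = n ∧ Homogeneous (s + 3) c S := by
  obtain ⟨δ₁, hδ₁, n₁, h1⟩ := fit s q hq ε hε
  obtain ⟨δ₂, hδ₂, n₂, h2⟩ := BB_le (s + 1) (ε / 8) (by positivity)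
  obtain ⟨j, δ₃, hδ₃, n₃, h3⟩ := base_le δ₂ hδ₂
  set L₀ : ℝ := (q : ℝ) * 2 ^ (s + 3) + 1 with hL₀
  have hL₀0 : 0 < L₀ := by positivity
  have hmin : 0 < min δ₂ δ₃ := lt_min hδ₂ hδ₃
  obtain ⟨n₄, h4⟩ := exists_nat_gt (2 / min δ₂ δ₃)
  obtain ⟨n₅, h5⟩ := exists_nat_gt (2 / δ₁)
  refine ⟨min δ₁ (min (min δ₂ δ₃ / (2 * (1 + L₀))) (δ₁ / (2 * (q + 3)))), by positivity,
    max (max n₁ n₂) (max n₃ (max n₄ n₅)), ?_⟩
  intro n hn w N hN hw l d c hlen hl hc
  have hn1 : n₁ ≤ n := (le_max_left _ _).trans ((le_max_left _ _).trans hn)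
  have hn2 : n₂ ≤ n := (le_max_right _ _).trans ((le_max_left _ _).trans hn)
  have hn3 : n₃ ≤ n := (le_max_left _ _).trans ((le_max_right _ _).trans hn)
  have hn4 : n₄ ≤ n := (le_max_left _ _).trans ((le_max_right _ _).trans
    ((le_max_right _ _).trans hn))
  have hn5 : n₅ ≤ n := (le_max_right _ _).trans ((le_max_right _ _).trans
    ((le_max_right _ _).trans hn))
  have hnn : (0 : ℝ) ≤ n := Nat.cast_nonneg n
  set δ := min δ₁ (min (min δ₂ δ₃ / (2 * (1 + L₀))) (δ₁ / (2 * (q + 3)))) with hδ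
  have hδ0 : 0 < δ := by positivity
  have hδ1 : δ ≤ δ₁ := min_le_left _ _
  have hδ2 : δ * (1 + L₀) ≤ min δ₂ δ₃ / 2 := by
    have : δ ≤ min δ₂ δ₃ / (2 * (1 + L₀)) := (min_le_right _ _).trans (min_le_left _ _)
    calc δ * (1 + L₀) ≤ min δ₂ δ₃ / (2 * (1 + L₀)) * (1 + L₀) :=
          mul_le_mul_of_nonneg_right this (by positivity)
      _ = min δ₂ δ₃ / 2 := by field_simp
  have hδ3 : δ * (q + 3) ≤ δ₁ / 2 := by
    have : δ ≤ δ₁ / (2 * (q + 3)) := (min_le_right _ _).trans (min_le_right _ _)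
    calc δ * (q + 3) ≤ δ₁ / (2 * (q + 3)) * (q + 3) :=
          mul_le_mul_of_nonneg_right this (by positivity)
      _ = δ₁ / 2 := by field_simp
  have hn4' : 1 ≤ min δ₂ δ₃ / 2 * n := by
    rw [div_lt_iff₀ hmin] at h4
    have : (n₄ : ℝ) ≤ n := by exact_mod_cast hn4
    nlinarith
  have hn5' : 1 ≤ δ₁ / 2 * n := by
    rw [div_lt_iff₀ hδ₁] at h5
    have : (n₅ : ℝ) ≤ n := by exact_mod_cast hn5
    nlinarith
  set b := ⌊δ * n⌋₊ with hb
  have hbR : (b : ℝ) ≤ δ * n := Nat.floor_le (by positivity)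
  have hmono : ∀ {x y : ℝ}, x ≤ y → (2 : ℝ) ^ x ≤ 2 ^ y := fun h =>
    Real.rpow_le_rpow_of_exponent_le (by norm_num) h
  -- the number of leaves
  set W := l.length * 2 ^ (b * (q * 2 ^ (s + 1 + 2) + 1)) with hW
  have hWle : (W : ℝ) + 1 ≤ 2 ^ (min δ₂ δ₃ * n) := by
    have e1 : (W : ℝ) ≤ 2 ^ (δ * (1 + L₀) * n) := by
      rw [hW]
      push_cast
      calc (l.length : ℝ) * 2 ^ (b * (q * 2 ^ (s + 1 + 2) + 1)) ≤
          2 ^ (δ * n) * 2 ^ (δ * n * L₀) := by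
            apply mul_le_mul hlen _ (by positivity) (by positivity)
            rw [← Real.rpow_natCast]
            apply hmono
            push_cast
            have e : (q : ℝ) * 2 ^ (s + 1 + 2) + 1 = L₀ := by rw [hL₀]
            rw [e]
            exact mul_le_mul_of_nonneg_right hbR hL₀0.le
        _ = 2 ^ (δ * (1 + L₀) * n) := by
            rw [← Real.rpow_add (by norm_num)]
            congr 1
            ring
    have e2 : (1 : ℝ) ≤ 2 ^ (δ * (1 + L₀) * n) := Real.one_le_rpow (by norm_num) (by positivity)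
    calc (W : ℝ) + 1 ≤ 2 ^ (δ * (1 + L₀) * n) + 2 ^ (δ * (1 + L₀) * n) := add_le_add e1 e2
      _ = 2 ^ (1 + δ * (1 + L₀) * n) := by
          rw [Real.rpow_add (by norm_num), Real.rpow_one]
          ring
      _ ≤ 2 ^ (min δ₂ δ₃ * n) := by
          apply hmono
          have := mul_le_mul_of_nonneg_right hδ2 hnn
          linarith
  -- the number of functions
  set m := (l.length + 1) * (q + 2) ^ b with hm
  have hm1 : 1 ≤ m := Nat.mul_pos (by omega) (by positivity)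
  have hmle : (m : ℝ) ≤ 2 ^ (δ₁ * n) := by
    have e1 : (l.length : ℝ) + 1 ≤ 2 ^ (1 + δ * n) := by
      have : (1 : ℝ) ≤ 2 ^ (δ * n) := Real.one_le_rpow (by norm_num) (by positivity)
      rw [Real.rpow_add (by norm_num), Real.rpow_one]
      linarith
    have e2 : ((q : ℝ) + 2) ^ b ≤ 2 ^ ((q + 2) * (δ * n)) := by
      calc ((q : ℝ) + 2) ^ b ≤ (2 ^ ((q : ℝ) + 2)) ^ b :=
            pow_le_pow_left₀ (by positivity) (two_rpow_ge _) _
        _ = 2 ^ (((q : ℝ) + 2) * b) := by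
            rw [← Real.rpow_natCast, ← Real.rpow_mul (by norm_num)]
        _ ≤ _ := hmono (mul_le_mul_of_nonneg_left hbR (by positivity))
    rw [hm]
    push_cast
    calc ((l.length : ℝ) + 1) * ((q : ℝ) + 2) ^ b ≤
        2 ^ (1 + δ * n) * 2 ^ ((q + 2) * (δ * n)) :=
          mul_le_mul e1 e2 (by positivity) (by positivity)
      _ = 2 ^ (1 + δ * (q + 3) * n) := by
          rw [← Real.rpow_add (by norm_num)]
          congr 1
          ring
      _ ≤ 2 ^ (δ₁ * n) := by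
          apply hmono
          have := mul_le_mul_of_nonneg_right hδ3 hnn
          linarith
  -- the base
  set a := n / 2 ^ j + 1 with ha
  set T := (2 * (W + 1)) ^ (2 * j) * (a + n).choose a with hT
  have hT1 : 1 ≤ T := Nat.mul_pos (by positivity) (Nat.choose_pos (by omega))
  have hTle : (T : ℝ) ≤ 2 ^ (δ₂ * n) := h3 n hn3 W (hWle.trans (hmono
    (mul_le_mul_of_nonneg_right (min_le_right _ _) hnn)))
  have hB := h2 n hn2 W T hT1 (hWle.trans (hmono
    (mul_le_mul_of_nonneg_right (min_le_left _ _) hnn))) hTle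
  -- the width
  have htow : (1 : ℝ) ≤ tow (s + 1) (ε * n) := by
    have h6 := Pool.Agent.TH138.NF.le_tow s (ε * n)
    rw [tow_eq] at h6
    show (1 : ℝ) ≤ 2 ^ _
    exact Real.one_le_rpow (by norm_num) (le_trans (by positivity) h6)
  have hN0 : (0 : ℝ) < N := by
    refine lt_of_lt_of_le ?_ hN
    show (0 : ℝ) < 2 ^ _
    positivity
  have hlog : 1 ≤ Real.logb 2 N := by
    refine htow.trans ?_
    rw [Real.le_logb_iff_rpow_le (by norm_num) hN0]
    exact hN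
  have hw' : (w : ℝ) + 1 ≤ Real.logb 2 N ^ δ₁ :=
    hw.trans (Real.rpow_le_rpow_of_exponent_le hlog hδ1)
  refine main (b := b) (m := m) (W := W) (a := a) (j := j) hq l d c (fun p hp => (hl p hp).2)
    (fun p hp => Nat.le_floor (hl p hp).1) ?_ hm1 hc le_rfl ?_ (BB_pos hT1 _) ?_
  · rw [hm]
    exact Nat.mul_le_mul_right _ (by omega)
  · rw [ha]
    have h7 := Nat.div_add_mod n (2 ^ j)
    have h8 := Nat.mod_lt n (show 0 < 2 ^ j by positivity)
    have h9 : 2 ^ j * (n / 2 ^ j + 1) = 2 ^ j * (n / 2 ^ j) + 2 ^ j := by ring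
    omega
  · exact h1 n hn1 w N m _ hm1 hN hmle hw' hB

end Pool.Agent.Y424.DL
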