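import Pool.Agent.Y424.DL.Lists
import Pool.Agent.Y424.SP.Conv

/-!
# Decision lists of protocols with queries
-/

set_option autoImplicit false

namespace Pool.Agent.Y424.DL

open Finset Module
open Pool.Agent.Y424.SX
open Pool.Agent.Y424.SP (QProtocol iterate replace)
open Pool.Agent.TH360.SR (SliceRankLE Homogeneous)
open Pool.Agent.TH138.NF (Protocol nodes_length)

variable {q r : ℕ}

/-- The value of a decision list of protocols with queries: the colour which belongs to the first
protocol of the list with output `true`, and the colour `d` if there is none. -/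
def colourOf : List (QProtocol Bool q r × Bool) → Bool → (Fin (r + 1) → ℕ) → Bool
  | [], d, _ => d
  | p :: l, d, x => if p.1.run x = true then p.2 else colourOf l d x

open Classical in
/-- the queried functions -/
noncomputable def lfuns : List (QProtocol Bool q r × Bool) → Finset (Finset ℕ → Fin q)
  | [] => ∅
  | p :: l => p.1.funs ∪ lfuns l

theorem funs_subset {l : List (QProtocol Bool q r × Bool)} {p : QProtocol Bool q r × Bool}
    (hp : p ∈ l) : p.1.funs ⊆ lfuns l := by
  classical
  induction l with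
  | nil => simp at hp
  | cons p' l ih =>
    simp only [lfuns]
    rcases List.mem_cons.1 hp with rfl | hp
    · exact subset_union_left
    · exact (ih hp).trans subset_union_right

theorem card_lfuns {b : ℕ} {l : List (QProtocol Bool q r × Bool)} (hb : ∀ p ∈ l, p.1.steps ≤ b) :
    (lfuns l).card ≤ l.length * (q + 2) ^ b := by
  classical
  induction l with
  | nil => simp [lfuns]
  | cons p l ih =>
    simp only [lfuns, List.length_cons]
    refine (card_union_le _ _).trans ?_
    have h1 := (p.1.card_funs).trans (Nat.pow_le_pow_right (by omega) (hb p (by simp)))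
    have h2 := ih (fun p' hp' => hb p' (by simp [hp']))
    have e : (l.length + 1) * (q + 2) ^ b = l.length * (q + 2) ^ b + (q + 2) ^ b := by ring
    omega

theorem width_lfuns {w N : ℕ} {l : List (QProtocol Bool q r × Bool)}
    (hP : ∀ p ∈ l, p.1.Width w N) :
    ∀ h ∈ lfuns l, ∃ (F : Type) (_ : Field F), SliceRankLE F w r N h := by
  classical
  induction l with
  | nil => simp [lfuns]
  | cons p l ih =>
    intro h hh
    simp only [lfuns, mem_union] at hh
    rcases hh with hh | hh
    · exact QProtocol.width_funs (hP p (by simp)) h hh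
    · exact ih (fun p' hp' => hP p' (by simp [hp'])) h hh

/-- the number of vertices which is sufficient, `m` being the number of functions -/
def NM (q m w r M : ℕ) : ℕ :=
  (12 * M * q ^ ((w + 1) * (w + 2) ^ r * m)) ^ ((4 * (m * (w + 2))) ^ (r + 1))

/-- A decision list of protocols with queries is a decision list of protocols without queries on a
large set of vertices. -/
theorem convert (hq : 1 ≤ q) (l : List (QProtocol Bool q r × Bool)) {w N M b m : ℕ}
    (hP : ∀ p ∈ l, p.1.Width w N) (hb : ∀ p ∈ l, p.1.steps ≤ b) (hm : l.length * (q + 2) ^ b ≤ m)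
    (hm1 : 1 ≤ m) (hM : 1 ≤ M) (hN : NM q m w r M ≤ N) :
    ∃ (K : ℕ → ℕ) (l' : List (Protocol Bool r × Bool)), StrictMono K ∧ (∀ h < M, K h < N) ∧
      wt l' ≤ l.length * 2 ^ (b * (q * 2 ^ (r + 1) + 1)) ∧
      ∀ d, ∀ y : Fin (r + 1) → ℕ, StrictMono y → (∀ i, y i < M) →
        lrun l' d y = colourOf l d (fun i => K (y i)) := by
  classical
  have hw := width_lfuns hP
  have hw' : ∀ v : {h // h ∈ lfuns l}, ∃ (F : Type) (_ : Field F), SliceRankLE F w r N v.1 :=
    fun v => hw v.1 v.2
  choose F hF hS using hw'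
  have hrep := fun v : {h // h ∈ lfuns l} => rep_of_slice (hS v)
  choose a Φ g ha hg using hrep
  have hm' : Fintype.card {h // h ∈ lfuns l} ≤ m := by
    rw [Fintype.card_coe]
    exact (card_lfuns hb).trans hm
  set m' := Fintype.card {h // h ∈ lfuns l} with hmdef
  have hQ1 : 1 ≤ (Fintype.card (Fin q) ^ ((w + 1) * (w + 2) ^ r)) ^ m' := by
    rw [Fintype.card_fin]
    exact Nat.one_le_pow _ _ (Nat.one_le_pow _ _ hq)
  have hE : m' * (2 * w + 2) + 1 ≤ 2 * (m * (w + 2)) := by
    have h2 : m' * (2 * w + 2) ≤ m * (2 * w + 2) := Nat.mul_le_mul_right _ hm'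
    nlinarith
  obtain ⟨K, hK, hKN, hK'⟩ := iterate (w := w) a (r + 1) (fun v => v.1) ∅ Φ N (3 * M) (by omega)
    (by simp) (fun v => ⟨g v, hg v⟩) (by
      refine (SP.LL_le _ _ _ (by omega) hQ1 (by omega) _).trans (le_trans ?_ hN)
      have hbase : 4 * (3 * M) * (Fintype.card (Fin q) ^ ((w + 1) * (w + 2) ^ r)) ^ m' ≤
          12 * M * q ^ ((w + 1) * (w + 2) ^ r * m) := by
        have e : 4 * (3 * M) = 12 * M := by ring
        rw [e, Fintype.card_fin, ← pow_mul]
        exact Nat.mul_le_mul_left _ (Nat.pow_le_pow_right hq (Nat.mul_le_mul_left _ hm'))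
      have hbase1 : 1 ≤ 12 * M * q ^ ((w + 1) * (w + 2) ^ r * m) := by
        have := Nat.one_le_pow ((w + 1) * (w + 2) ^ r * m) q hq
        exact Nat.one_le_iff_ne_zero.2 (by positivity)
      refine (Nat.pow_le_pow_left hbase _).trans ?_
      apply Nat.pow_le_pow_right hbase1
      apply Nat.pow_le_pow_left
      have e : 4 * (m * (w + 2)) = 2 * (2 * (m * (w + 2))) := by ring
      rw [e]
      exact Nat.mul_le_mul_left _ hE)
  have hF' : ∀ h ∈ lfuns l, ∃ (F : Type) (_ : Field F) (w : ℕ) (a : Fin q → F)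
      (Φ : ℕ → Fin (w + 1) → F) (g : Fin (r + 1) → Fin (w + 1) → (Fin r → ℕ) → F),
      Function.Injective a ∧ Rep univ Φ (3 * M)
        (fun x => a (h (univ.image fun i => K (x i)))) g := by
    intro h hh
    obtain ⟨Φ', g', hg'⟩ := hK' ⟨h, hh⟩
    exact ⟨F ⟨h, hh⟩, hF ⟨h, hh⟩, w, a ⟨h, hh⟩, Φ', g', ha ⟨h, hh⟩, hg'⟩
  have hlist : ∀ l₀ : List (QProtocol Bool q r × Bool), (∀ p ∈ l₀, p ∈ l) →
      ∃ l' : List (Protocol Bool r × Bool), wt l' ≤ l₀.length * 2 ^ (b * (q * 2 ^ (r + 1) + 1)) ∧
        ∀ d, ∀ y : Fin (r + 1) → ℕ, StrictMono y → (∀ i, y i < M) →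
          lrun l' d y = colourOf l₀ d (fun i => K (3 * y i + 2)) := by
    intro l₀
    induction l₀ with
    | nil => intro _; exact ⟨[], by simp [wt], fun d y _ _ => rfl⟩
    | cons p l₀ ih =>
      intro hsub
      obtain ⟨l', h1, h2⟩ := ih (fun p' hp' => hsub p' (by simp [hp']))
      have hp := hsub p (by simp)
      obtain ⟨P', hP1, hP2⟩ := replace K M p.1 (fun h hh => hF' h (funs_subset hp hh))
      refine ⟨(P', p.2) :: l', ?_, ?_⟩
      · simp only [wt, List.length_cons]
        have h3 : P'.nodes.length + 1 ≤ 2 ^ (b * (q * 2 ^ (r + 1) + 1)) := by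
          refine (nodes_length P').trans (Nat.pow_le_pow_right (by norm_num) (hP1.trans ?_))
          exact Nat.mul_le_mul_right _ (hb p hp)
        have e : (l₀.length + 1) * 2 ^ (b * (q * 2 ^ (r + 1) + 1)) =
          l₀.length * 2 ^ (b * (q * 2 ^ (r + 1) + 1)) + 2 ^ (b * (q * 2 ^ (r + 1) + 1)) := by ring
        omega
      · intro d y hy hyM
        simp only [lrun, colourOf]
        rw [hP2 y hy hyM, h2 d y hy hyM]
  obtain ⟨l', h1, h2⟩ := hlist l (fun p hp => hp)
  exact ⟨fun y => K (3 * y + 2), l', fun x y hxy => hK (by omega), fun h hh => hKN _ (by omega),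
    h1, h2⟩

/-- Colourings given by decision lists of protocols with queries. -/
theorem main (hq : 1 ≤ q) {s n w N b m W a j : ℕ} (l : List (QProtocol Bool q (s + 1) × Bool))
    (d : Bool) (c : Finset ℕ → Bool) (hP : ∀ p ∈ l, p.1.Width w N)
    (hb : ∀ p ∈ l, p.1.steps ≤ b) (hm : l.length * (q + 2) ^ b ≤ m) (hm1 : 1 ≤ m)
    (hc : ∀ x : Fin (s + 2) → ℕ, StrictMono x → (∀ i, x i < N) →
      colourOf l d x = c (univ.image x))
    (hW : l.length * 2 ^ (b * (q * 2 ^ (s + 2) + 1)) ≤ W) (hn : n ≤ 2 ^ j * a)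
    (hB : 1 ≤ BB W ((2 * (W + 1)) ^ (2 * j) * (a + n).choose a) s)
    (hN : NM q m w (s + 1) (BB W ((2 * (W + 1)) ^ (2 * j) * (a + n).choose a) s) ≤ N) :
    ∃ S ⊆ range N, S.card = n ∧ Homogeneous (s + 2) c S := by
  classical
  set M := BB W ((2 * (W + 1)) ^ (2 * j) * (a + n).choose a) s with hM
  obtain ⟨K, l', hK, hKN, hwt, hrun⟩ := convert hq l hP hb hm hm1 hB hN
  obtain ⟨S, hS, hSc, hSH⟩ := upper n W ((2 * (W + 1)) ^ (2 * j) * (a + n).choose a) d
    (fun l V hl hV => two l d (W + 1) a n j (by omega) hn V hV) s l' (range M)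
    (hwt.trans hW) (by rw [card_range])
  have key : ∀ D ⊆ S, ∀ hD : D.card = s + 2,
      c (D.image K) = lrun l' d (fun i => D.orderEmbOfFin hD i) := by
    intro D hDS hD
    have hx := (D.orderEmbOfFin hD).strictMono
    have hxM : ∀ i, D.orderEmbOfFin hD i < M := fun i =>
      mem_range.1 (hS (hDS (D.orderEmbOfFin_mem hD i)))
    have h0 : StrictMono (fun i => K (D.orderEmbOfFin hD i)) := hK.comp hx
    rw [hrun d _ hx hxM, hc _ h0 (fun i => hKN _ (hxM i))]
    congr 1
    rw [← coe_inj, coe_image, coe_image, coe_univ, Set.image_univ,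
      show (fun i => K (D.orderEmbOfFin hD i)) = K ∘ (D.orderEmbOfFin hD) from rfl,
      Set.range_comp, range_orderEmbOfFin]
  refine ⟨S.map ⟨K, hK.injective⟩, ?_, by rw [card_map, hSc], ?_⟩
  · intro x hx
    obtain ⟨h, hh, rfl⟩ := mem_map.1 hx
    exact mem_range.2 (hKN _ (mem_range.1 (hS hh)))
  · intro A hA B hB hAc hBc
    obtain ⟨A', hA', rfl⟩ := subset_map_iff.1 hA
    obtain ⟨B', hB', rfl⟩ := subset_map_iff.1 hB
    rw [card_map] at hAc hBc
    rw [map_eq_image, map_eq_image]
    show c (A'.image K) = c (B'.image K)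
    rw [key A' hA' hAc, key B' hB' hBc]
    exact hSH _ _ (A'.orderEmbOfFin hAc).strictMono (B'.orderEmbOfFin hBc).strictMono
      (fun i => hA' (A'.orderEmbOfFin_mem hAc i)) (fun i => hB' (B'.orderEmbOfFin_mem hBc i))

end Pool.Agent.Y424.DL
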