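import Pool.Agent.Y424.DL.Rect
import Pool.Agent.TH138.NF.Main

/-!
# Decision lists of protocols
-/

set_option autoImplicit false

namespace Pool.Agent.Y424.DL

open Finset
open Pool.Agent.TH138.NF (Protocol end_hom run_proj)

variable {r : ℕ}

/-- The colour is that of the first protocol of the list whose output is `true`. -/
def lrun : List (Protocol Bool r × Bool) → Bool → (Fin (r + 1) → ℕ) → Bool
  | [], d, _ => d
  | p :: l, d, x => if p.1.run x = true then p.2 else lrun l d x

/-- the total number of leaves -/
def wt : List (Protocol Bool r × Bool) → ℕ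
  | [] => 0
  | p :: l => p.1.nodes.length + 1 + wt l

/-- the functions at the nodes -/
def lnodes : List (Protocol Bool r × Bool) → List ((Fin r → ℕ) → Bool)
  | [] => []
  | p :: l => p.1.nodes ++ lnodes l

theorem lnodes_length (l : List (Protocol Bool r × Bool)) : (lnodes l).length ≤ wt l := by
  induction l with
  | nil => simp [lnodes, wt]
  | cons p l ih =>
    simp only [lnodes, wt, List.length_append]
    omega

/-- one player less -/
def lproj {s : ℕ} (v : ℕ → ℕ) (w : ℕ) : List (Protocol Bool (s + 2) × Bool) →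
    List (Protocol Bool (s + 1) × Bool)
  | [] => []
  | p :: l => (p.1.proj v w, p.2) :: lproj v w l

theorem nodes_proj {s : ℕ} (v : ℕ → ℕ) (w : ℕ) (P : Protocol Bool (s + 2)) :
    (P.proj v w).nodes.length = P.nodes.length := by
  induction P with
  | out a => rfl
  | ask j f P Q ihP ihQ =>
    simp [Protocol.proj, Protocol.nodes, ihP, ihQ]

theorem wt_lproj {s : ℕ} (v : ℕ → ℕ) (w : ℕ) (l : List (Protocol Bool (s + 2) × Bool)) :
    wt (lproj v w l) = wt l := by
  induction l with
  | nil => rfl
  | cons p l ih => simp only [lproj, wt, nodes_proj, ih]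

theorem lrun_lproj {s : ℕ} (v : ℕ → ℕ) (w k : ℕ) (d : Bool)
    (l : List (Protocol Bool (s + 2) × Bool))
    (hP : ∀ f ∈ lnodes l, ∀ i : Fin (s + 1) → ℕ, ∀ j < k, (∀ a, i a < j) →
      f (Fin.snoc (fun a => v (i a)) (v j)) = f (Fin.snoc (fun a => v (i a)) w))
    (i : Fin (s + 3) → ℕ) (hi : StrictMono i) (hk : ∀ a, i a < k) :
    lrun l d (fun a => v (i a)) = lrun (lproj v w l) d (fun a => i a.castSucc) := by
  induction l with
  | nil => rfl
  | cons p l ih =>
    simp only [lrun, lproj]
    rw [run_proj v w k p.1 (fun f hf => hP f (by simp [lnodes, hf])) i hi hk,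
      ih (fun f hf => hP f (by simp [lnodes, hf]))]

/-- the rectangles of a protocol of two players on which the output is `true` -/
def rects : Protocol Bool 1 → List ((ℕ → Bool) × (ℕ → Bool))
  | .out a => if a = true then [(fun _ => true, fun _ => true)] else []
  | .ask j f P Q =>
    if j = 0 then
      (rects P).map (fun R => (R.1, fun y => R.2 y && !f (fun _ => y))) ++
        (rects Q).map (fun R => (R.1, fun y => R.2 y && f (fun _ => y)))
    else
      (rects P).map (fun R => (fun x => R.1 x && !f (fun _ => x), R.2)) ++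
        (rects Q).map (fun R => (fun x => R.1 x && f (fun _ => x), R.2))

theorem rects_length (P : Protocol Bool 1) : (rects P).length ≤ P.nodes.length + 1 := by
  induction P with
  | out a =>
    simp only [rects, Protocol.nodes]
    split_ifs <;> simp
  | ask j f P Q ihP ihQ =>
    simp only [rects, Protocol.nodes]
    split_ifs <;> simp only [List.length_append, List.length_map, List.length_cons] <;> omega

theorem ex_app {α : Type} (L₁ L₂ : List α) (g₁ g₂ : α → α) (p : α → Prop) :
    (∃ R ∈ L₁.map g₁ ++ L₂.map g₂, p R) ↔ (∃ R ∈ L₁, p (g₁ R)) ∨ (∃ R ∈ L₂, p (g₂ R)) := by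
  constructor
  · rintro ⟨R, hR, hp⟩
    rcases List.mem_append.1 hR with h | h
    · obtain ⟨R', h1, rfl⟩ := List.mem_map.1 h
      exact Or.inl ⟨R', h1, hp⟩
    · obtain ⟨R', h1, rfl⟩ := List.mem_map.1 h
      exact Or.inr ⟨R', h1, hp⟩
  · rintro (⟨R, hR, hp⟩ | ⟨R, hR, hp⟩)
    · exact ⟨g₁ R, List.mem_append.2 (Or.inl (List.mem_map.2 ⟨R, hR, rfl⟩)), hp⟩
    · exact ⟨g₂ R, List.mem_append.2 (Or.inr (List.mem_map.2 ⟨R, hR, rfl⟩)), hp⟩

theorem mem_rects (P : Protocol Bool 1) (x : Fin 2 → ℕ) :
    P.run x = true ↔ ∃ R ∈ rects P, R.1 (x 0) = true ∧ R.2 (x 1) = true := by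
  induction P with
  | out a =>
    simp only [Protocol.run, rects]
    by_cases ha : a = true
    · rw [if_pos ha]
      simp [ha]
    · rw [if_neg ha]
      simp [ha]
  | ask j f P Q ihP ihQ =>
    have hrem : j.removeNth x = fun _ => x (j.succAbove 0) := by
      funext a
      rw [Fin.removeNth_apply, Subsingleton.elim a 0]
    by_cases hj : j = 0
    · subst hj
      have e : (0 : Fin 2).succAbove 0 = 1 := rfl
      have h0 : rects (.ask 0 f P Q) =
          (rects P).map (fun R => (R.1, fun y => R.2 y && !f (fun _ => y))) ++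
            (rects Q).map (fun R => (R.1, fun y => R.2 y && f (fun _ => y))) := by
        simp [rects]
      simp only [Protocol.run]
      rw [hrem, e, h0, ex_app]
      by_cases hf : f (fun _ => x 1) = true
      · rw [if_pos hf, ihQ]
        simp [hf]
      · rw [if_neg hf, ihP]
        simp [hf]
    · have hj' : j = 1 := by
        rcases Fin.exists_fin_two.1 ⟨j, rfl⟩ with h | h
        · exact absurd h hj
        · exact h
      subst hj'
      have e : (1 : Fin 2).succAbove 0 = 0 := rfl
      have h0 : rects (.ask 1 f P Q) =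
          (rects P).map (fun R => (fun x => R.1 x && !f (fun _ => x), R.2)) ++
            (rects Q).map (fun R => (fun x => R.1 x && f (fun _ => x), R.2)) := by
        simp [rects]
      simp only [Protocol.run]
      rw [hrem, e, h0, ex_app]
      by_cases hf : f (fun _ => x 0) = true
      · rw [if_pos hf, ihQ]
        simp [hf]
      · rw [if_neg hf, ihP]
        simp [hf]

/-- the decision list of rectangles -/
def lrects : List (Protocol Bool 1 × Bool) → List (((ℕ → Bool) × (ℕ → Bool)) × Bool)
  | [] => []
  | p :: l => (rects p.1).map (fun R => (R, p.2)) ++ lrects l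

theorem lrects_length (l : List (Protocol Bool 1 × Bool)) : (lrects l).length ≤ wt l := by
  induction l with
  | nil => simp [lrects, wt]
  | cons p l ih =>
    simp only [lrects, wt, List.length_append, List.length_map]
    have := rects_length p.1
    omega

theorem rrun_append (d a : Bool) (L : List ((ℕ → Bool) × (ℕ → Bool)))
    (l : List (((ℕ → Bool) × (ℕ → Bool)) × Bool)) (x y : ℕ) :
    rrun (L.map (fun R => (R, a)) ++ l) d x y =
      if ∃ R ∈ L, R.1 x = true ∧ R.2 y = true then a else rrun l d x y := by
  induction L with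
  | nil => simp
  | cons R L ih =>
    simp only [List.map_cons, List.cons_append, rrun]
    rw [ih]
    by_cases h : R.1 x = true ∧ R.2 y = true
    · rw [if_pos h, if_pos ⟨R, by simp, h⟩]
    · rw [if_neg h]
      by_cases h' : ∃ R ∈ L, R.1 x = true ∧ R.2 y = true
      · rw [if_pos h']
        obtain ⟨R', hR', h'⟩ := h'
        rw [if_pos ⟨R', by simp [hR'], h'⟩]
      · rw [if_neg h', if_neg]
        rintro ⟨R', hR', h''⟩
        rcases List.mem_cons.1 hR' with rfl | hR'
        · exact h h''
        · exact h' ⟨R', hR', h''⟩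

theorem lrun_eq (d : Bool) (l : List (Protocol Bool 1 × Bool)) (x : Fin 2 → ℕ) :
    lrun l d x = rrun (lrects l) d (x 0) (x 1) := by
  induction l with
  | nil => rfl
  | cons p l ih =>
    simp only [lrun, lrects]
    rw [rrun_append, ih]
    simp only [mem_rects p.1 x]

/-- All increasing tuples in `S` get the same colour. -/
def LHom (l : List (Protocol Bool r × Bool)) (d : Bool) (S : Finset ℕ) : Prop :=
  ∀ x y : Fin (r + 1) → ℕ, StrictMono x → StrictMono y → (∀ i, x i ∈ S) → (∀ i, y i ∈ S) →
    lrun l d x = lrun l d y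

/-- two players -/
theorem two (l : List (Protocol Bool 1 × Bool)) (d : Bool) (W a n m : ℕ) (hW : wt l + 1 ≤ W)
    (hn : n ≤ 2 ^ m * a) (V : Finset ℕ) (hV : (2 * W) ^ (2 * m) * (a + n).choose a ≤ V.card) :
    ∃ S ⊆ V, S.card = n ∧ LHom l d S := by
  obtain ⟨c, S, hS, h1, h2⟩ := base (lrects l) d W a n m
    (by have := lrects_length l; omega) hn V hV
  refine ⟨S, hS, h1, fun x y hx hy hxS hyS => ?_⟩
  rw [lrun_eq, lrun_eq, h2 _ (hxS 0) _ (hxS 1) (hx (by decide)),
    h2 _ (hyS 0) _ (hyS 1) (hy (by decide))]

/-- The bound: `BB W T s` for `s + 2` players. -/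
def BB (W T : ℕ) : ℕ → ℕ
  | 0 => T
  | s + 1 => (2 * 2 ^ (W * ((s + 1) * (BB W T s) ^ s))) ^ (BB W T s)

/-- The upper bound. -/
theorem upper (n W T : ℕ) (d : Bool)
    (hT : ∀ (l : List (Protocol Bool 1 × Bool)) (V : Finset ℕ), wt l ≤ W → T ≤ V.card →
      ∃ S ⊆ V, S.card = n ∧ LHom l d S) : ∀ (s : ℕ) (l : List (Protocol Bool (s + 1) × Bool))
    (V : Finset ℕ), wt l ≤ W → BB W T s ≤ V.card → ∃ S ⊆ V, S.card = n ∧ LHom l d S := by
  classical
  intro s
  induction s with
  | zero =>
    intro l V hb hV
    exact hT l V hb hV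
  | succ s ih =>
    intro l V hb hV
    set k := BB W T s with hk
    let m := (lnodes l).length
    let L : (Fin (s + 2) → ℕ) → (Fin m → Bool) := fun y a => (lnodes l).get a y
    have hm : m ≤ W := (lnodes_length l).trans hb
    have hcard : Fintype.card (Fin m → Bool) = 2 ^ m := by simp
    obtain ⟨v, W', hWV, hWc, hvV, hvm, hvW, -, h2⟩ := end_hom L V k
      (2 * Fintype.card (Fin m → Bool) ^ ((s + 1) * k ^ s)) rfl (by
        refine le_trans ?_ hV
        rw [hcard, ← pow_mul]
        simp only [BB, ← hk]
        apply Nat.pow_le_pow_left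
        apply Nat.mul_le_mul_left
        apply Nat.pow_le_pow_right (by norm_num)
        exact Nat.mul_le_mul_right _ hm) k le_rfl
    have hWne : W'.Nonempty := by
      rw [← card_pos]
      refine lt_of_lt_of_le ?_ hWc
      positivity
    obtain ⟨w, hw⟩ := hWne
    have hP : ∀ f ∈ lnodes l, ∀ i : Fin (s + 1) → ℕ, ∀ j < k, (∀ a, i a < j) →
        f (Fin.snoc (fun a => v (i a)) (v j)) = f (Fin.snoc (fun a => v (i a)) w) := by
      intro f hf i j hj hij
      obtain ⟨a, ha⟩ := List.get_of_mem hf
      have := congrFun (h2 i j hj hij w hw) a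
      simp only [L, ha] at this
      exact this
    obtain ⟨S', hS', hc', hh⟩ := ih (lproj v w l) (range k) (by rw [wt_lproj]; exact hb)
      (by rw [card_range])
    have hinj : Set.InjOn v (range k : Finset ℕ) := by
      intro i hi j hj hij
      rw [coe_range, Set.mem_Iio] at hi hj
      rcases lt_trichotomy i j with h | h | h
      · exact absurd hij (hvm i j h hj).ne
      · exact h
      · exact absurd hij (hvm j i h hi).ne'
    refine ⟨S'.image v, ?_, ?_, ?_⟩
    · intro u hu
      obtain ⟨i, hi, rfl⟩ := mem_image.1 hu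
      exact hvV i (mem_range.1 (hS' hi))
    · rw [card_image_of_injOn (hinj.mono (by exact_mod_cast hS')), hc']
    · have key : ∀ x : Fin (s + 3) → ℕ, StrictMono x → (∀ a, x a ∈ S'.image v) →
          ∃ i : Fin (s + 2) → ℕ, StrictMono i ∧ (∀ a, i a ∈ S') ∧
            lrun l d x = lrun (lproj v w l) d i := by
        intro x hx hxS
        have hch : ∀ a, ∃ i ∈ S', v i = x a := fun a => by
          simpa using mem_image.1 (hxS a)
        choose i hi hvi using hch
        have him : StrictMono i := by
          intro a a' haa'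
          by_contra hle
          push Not at hle
          have h3 := hx haa'
          rw [← hvi a, ← hvi a'] at h3
          rcases Nat.lt_or_eq_of_le hle with h | h
          · exact absurd (hvm _ _ h (mem_range.1 (hS' (hi a)))) (not_lt.2 h3.le)
          · rw [h] at h3; exact lt_irrefl _ h3
        refine ⟨fun a => i a.castSucc, fun a a' h => him (by simpa using h),
          fun a => hi _, ?_⟩
        have hxe : x = fun a => v (i a) := by
          funext a
          rw [hvi]
        rw [hxe]
        exact lrun_lproj v w k d l hP i him (fun a => mem_range.1 (hS' (hi a)))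
      intro x y hx hy hxS hyS
      obtain ⟨i, hi1, hi2, hi3⟩ := key x hx hxS
      obtain ⟨i', hi1', hi2', hi3'⟩ := key y hy hyS
      rw [hi3, hi3']
      exact hh i i' hi1 hi1' hi2 hi2'

end Pool.Agent.Y424.DL
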