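import Mathlib
import Pool.Agent.Y424.SX.Blocks

/-!
# Decision lists of rectangles

A two-colouring of the pairs `x < y` given by a decision list of rectangles: homogeneous sets.
-/

set_option autoImplicit false

namespace Pool.Agent.Y424.DL

open Finset

/-- The value of a decision list of rectangles: the colour of the first rectangle which contains
`(x, y)`. -/
def rrun : List (((ℕ → Bool) × (ℕ → Bool)) × Bool) → Bool → ℕ → ℕ → Bool
  | [], d, _, _ => d
  | R :: l, d, x, y => if R.1.1 x = true ∧ R.1.2 y = true then R.2 else rrun l d x y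

theorem rect (d : Bool) : ∀ (l : List (((ℕ → Bool) × (ℕ → Bool)) × Bool)) (X Y : Finset ℕ) (t : ℕ),
    (l.length + 1) * t ≤ X.card → (l.length + 1) * t ≤ Y.card →
    ∃ X' ⊆ X, ∃ Y' ⊆ Y, t ≤ X'.card ∧ t ≤ Y'.card ∧
      ∃ c, ∀ x ∈ X', ∀ y ∈ Y', rrun l d x y = c := by
  classical
  intro l
  induction l with
  | nil =>
    intro X Y t hX hY
    exact ⟨X, Subset.rfl, Y, Subset.rfl, by simpa using hX, by simpa using hY, d,
      fun _ _ _ _ => rfl⟩
  | cons R l ih =>
    intro X Y t hX hY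
    have e1 : (l.length + 1 + 1) * t = (l.length + 1) * t + t := by ring
    rw [List.length_cons, e1] at hX hY
    by_cases hA : t ≤ (X.filter (fun x => R.1.1 x = true)).card
    · by_cases hB : t ≤ (Y.filter (fun y => R.1.2 y = true)).card
      · refine ⟨_, filter_subset _ _, _, filter_subset _ _, hA, hB, R.2, fun x hx y hy => ?_⟩
        simp only [rrun]
        rw [if_pos ⟨(mem_filter.1 hx).2, (mem_filter.1 hy).2⟩]
      · have hsum := card_filter_add_card_filter_not (s := Y) (fun y => R.1.2 y = true)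
        obtain ⟨X', hX', Y', hY', h1, h2, c, hc⟩ := ih X
          (Y.filter (fun y => ¬ R.1.2 y = true)) t (by omega) (by omega)
        refine ⟨X', hX', Y', hY'.trans (filter_subset _ _), h1, h2, c, fun x hx y hy => ?_⟩
        simp only [rrun]
        rw [if_neg (fun h => (mem_filter.1 (hY' hy)).2 h.2)]
        exact hc x hx y hy
    · have hsum := card_filter_add_card_filter_not (s := X) (fun x => R.1.1 x = true)
      obtain ⟨X', hX', Y', hY', h1, h2, c, hc⟩ := ih
        (X.filter (fun x => ¬ R.1.1 x = true)) Y t (by omega) (by omega)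
      refine ⟨X', hX'.trans (filter_subset _ _), Y', hY', h1, h2, c, fun x hx y hy => ?_⟩
      simp only [rrun]
      rw [if_neg (fun h => (mem_filter.1 (hX' hx)).2 h.1)]
      exact hc x hx y hy

/-- Two sets, one below the other, with constant colour between them. -/
theorem split (l : List (((ℕ → Bool) × (ℕ → Bool)) × Bool)) (d : Bool) (V : Finset ℕ) (t : ℕ)
    (hV : 2 * (l.length + 1) * t ≤ V.card) :
    ∃ X ⊆ V, ∃ Y ⊆ V, t ≤ X.card ∧ t ≤ Y.card ∧ (∀ x ∈ X, ∀ y ∈ Y, x < y) ∧
      ∃ c, ∀ x ∈ X, ∀ y ∈ Y, rrun l d x y = c := by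
  classical
  obtain ⟨σ, hσ, hσV⟩ := SX.enum V
  set h := (l.length + 1) * t with hh
  have hV' : 2 * h ≤ V.card := by rw [hh, ← mul_assoc]; exact hV
  obtain ⟨X, hX, Y, hY, h1, h2, c, hc⟩ := rect d l ((range h).image σ) ((Ico h (2 * h)).image σ) t
    (by rw [card_image_of_injective _ hσ.injective, card_range])
    (by rw [card_image_of_injective _ hσ.injective, Nat.card_Ico]; omega)
  refine ⟨X, ?_, Y, ?_, h1, h2, ?_, c, hc⟩
  · intro x hx
    obtain ⟨i, hi, rfl⟩ := mem_image.1 (hX hx)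
    exact hσV i (by have := mem_range.1 hi; omega)
  · intro y hy
    obtain ⟨i, hi, rfl⟩ := mem_image.1 (hY hy)
    exact hσV i (by have := mem_Ico.1 hi; omega)
  · intro x hx y hy
    obtain ⟨i, hi, rfl⟩ := mem_image.1 (hX hx)
    obtain ⟨j, hj, rfl⟩ := mem_image.1 (hY hy)
    exact hσ (by have := mem_range.1 hi; have := mem_Ico.1 hj; omega)

/-- `V` contains `n` elements all pairs of which have colour `c`. -/
def Clq (f : ℕ → ℕ → Bool) (c : Bool) (n : ℕ) (V : Finset ℕ) : Prop :=
  ∃ S ⊆ V, S.card = n ∧ ∀ x ∈ S, ∀ y ∈ S, x < y → f x y = c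

theorem Clq.mono {f : ℕ → ℕ → Bool} {c : Bool} {n : ℕ} {V W : Finset ℕ} (h : Clq f c n V)
    (hVW : V ⊆ W) : Clq f c n W := by
  obtain ⟨S, hS, h1, h2⟩ := h
  exact ⟨S, hS.trans hVW, h1, h2⟩

theorem Clq.le {f : ℕ → ℕ → Bool} {c : Bool} {m n : ℕ} {V : Finset ℕ} (h : Clq f c n V)
    (hmn : m ≤ n) : Clq f c m V := by
  obtain ⟨S, hS, h1, h2⟩ := h
  obtain ⟨T, hT, hTc⟩ := exists_subset_card_eq (s := S) (n := m) (by omega)
  exact ⟨T, hT.trans hS, hTc, fun x hx y hy => h2 x (hT hx) y (hT hy)⟩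

theorem Clq.zero (f : ℕ → ℕ → Bool) (c : Bool) (V : Finset ℕ) : Clq f c 0 V :=
  ⟨∅, empty_subset _, rfl, by simp⟩

theorem Clq.add {f : ℕ → ℕ → Bool} {c : Bool} {m n : ℕ} {X Y V : Finset ℕ} (hX : Clq f c m X)
    (hY : Clq f c n Y) (hXV : X ⊆ V) (hYV : Y ⊆ V) (hlt : ∀ x ∈ X, ∀ y ∈ Y, x < y)
    (hc : ∀ x ∈ X, ∀ y ∈ Y, f x y = c) : Clq f c (m + n) V := by
  classical
  obtain ⟨S, hS, hSc, hSh⟩ := hX
  obtain ⟨T, hT, hTc, hTh⟩ := hY
  refine ⟨S ∪ T, union_subset (hS.trans hXV) (hT.trans hYV), ?_, ?_⟩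
  · rw [card_union_of_disjoint, hSc, hTc]
    rw [disjoint_left]
    intro x hx hx'
    exact lt_irrefl _ (hlt x (hS hx) x (hT hx'))
  · intro x hx y hy hxy
    rcases mem_union.1 hx with hx | hx <;> rcases mem_union.1 hy with hy | hy
    · exact hSh x hx y hy hxy
    · exact hc x (hS hx) y (hT hy)
    · exact absurd (hlt y (hS hy) x (hT hx)) (by omega)
    · exact hTh x hx y hy hxy

/-- Erdős–Szekeres. -/
theorem ramsey (f : ℕ → ℕ → Bool) : ∀ (k a b : ℕ) (V : Finset ℕ), a + b = k →
    (a + b).choose a ≤ V.card → Clq f true a V ∨ Clq f false b V := by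
  classical
  intro k
  induction k with
  | zero =>
    intro a b V hab _
    obtain ⟨rfl, rfl⟩ : a = 0 ∧ b = 0 := by omega
    exact Or.inl (Clq.zero _ _ _)
  | succ k ih =>
    intro a b V hab hV
    rcases Nat.eq_zero_or_pos a with rfl | ha
    · exact Or.inl (Clq.zero _ _ _)
    rcases Nat.eq_zero_or_pos b with rfl | hb
    · exact Or.inr (Clq.zero _ _ _)
    obtain ⟨a, rfl⟩ : ∃ a', a = a' + 1 := ⟨a - 1, by omega⟩
    obtain ⟨b, rfl⟩ : ∃ b', b = b' + 1 := ⟨b - 1, by omega⟩
    have hch : (a + 1 + (b + 1)).choose (a + 1) =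
        (a + (b + 1)).choose a + (a + 1 + b).choose (a + 1) := by
      have e1 : a + 1 + (b + 1) = (a + b + 1) + 1 := by ring
      have e2 : a + (b + 1) = a + b + 1 := by ring
      have e3 : a + 1 + b = a + b + 1 := by ring
      rw [e1, e2, e3, Nat.choose_succ_succ]
    rw [hch] at hV
    have h1 : 1 ≤ (a + (b + 1)).choose a := Nat.choose_pos (by omega)
    have hVne : V.Nonempty := card_pos.1 (by omega)
    set v := V.min' hVne with hv
    have hvV : v ∈ V := V.min'_mem hVne
    have hlt : ∀ w ∈ V.erase v, v < w := by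
      intro w hw
      have h := mem_erase.1 hw
      exact lt_of_le_of_ne (V.min'_le w h.2) (fun e => h.1 e.symm)
    have hcard : (V.erase v).card = V.card - 1 := card_erase_of_mem hvV
    have hsum := card_filter_add_card_filter_not (s := V.erase v) (fun y => f v y = true)
    have hext : ∀ (c : Bool) (n : ℕ) (W : Finset ℕ), W ⊆ V.erase v → (∀ y ∈ W, f v y = c) →
        Clq f c n W → Clq f c (n + 1) V := by
      intro c n W hW hWc hcl
      have h3 : Clq f c 1 {v} := ⟨{v}, Subset.rfl, by simp, by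
        intro x hx y hy hxy
        rw [mem_singleton.1 hx, mem_singleton.1 hy] at hxy
        exact absurd hxy (lt_irrefl _)⟩
      have h4 := Clq.add (V := V) h3 hcl (singleton_subset_iff.2 hvV)
        (hW.trans (erase_subset _ _)) (by
          intro x hx y hy
          rw [mem_singleton.1 hx]
          exact hlt y (hW hy)) (by
          intro x hx y hy
          rw [mem_singleton.1 hx]
          exact hWc y hy)
      rw [add_comm]
      exact h4
    by_cases hr : (a + (b + 1)).choose a ≤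
        ((V.erase v).filter (fun y => f v y = true)).card
    · rcases ih a (b + 1) _ (by omega) hr with h | h
      · exact Or.inl (hext true a _ (filter_subset _ _) (fun y hy => (mem_filter.1 hy).2) h)
      · exact Or.inr (h.mono ((filter_subset _ _).trans (erase_subset _ _)))
    · rcases ih (a + 1) b ((V.erase v).filter (fun y => ¬ f v y = true)) (by omega) (by omega)
        with h | h
      · exact Or.inl (h.mono ((filter_subset _ _).trans (erase_subset _ _)))
      · exact Or.inr (hext false b _ (filter_subset _ _)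
          (fun y hy => by simpa using (mem_filter.1 hy).2) h)

/-- The base: decision lists of rectangles. -/
theorem pairs (l : List (((ℕ → Bool) × (ℕ → Bool)) × Bool)) (d : Bool) (W a n : ℕ)
    (hW : l.length + 1 ≤ W) : ∀ (j₀ j₁ : ℕ) (V : Finset ℕ),
    (2 * W) ^ (j₀ + j₁) * (a + n).choose a ≤ V.card →
    Clq (rrun l d) true (2 ^ j₀ * a) V ∨ Clq (rrun l d) false (2 ^ j₁ * a) V ∨
      ∃ c, Clq (rrun l d) c n V := by
  classical
  suffices H : ∀ (j j₀ j₁ : ℕ) (V : Finset ℕ), j₀ + j₁ = j →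
    (2 * W) ^ (j₀ + j₁) * (a + n).choose a ≤ V.card →
    Clq (rrun l d) true (2 ^ j₀ * a) V ∨ Clq (rrun l d) false (2 ^ j₁ * a) V ∨
      ∃ c, Clq (rrun l d) c n V from fun j₀ j₁ V h => H _ j₀ j₁ V rfl h
  have hW1 : 1 ≤ W := by omega
  have hpow : ∀ j : ℕ, 1 ≤ (2 * W) ^ j := fun j => Nat.one_le_pow _ _ (by omega)
  intro j
  induction j with
  | zero =>
    intro j₀ j₁ V hj hV
    obtain ⟨rfl, rfl⟩ : j₀ = 0 ∧ j₁ = 0 := by omega
    rw [pow_zero, one_mul] at *
    rcases ramsey (rrun l d) _ a n V rfl (by simpa using hV) with h | h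
    · exact Or.inl h
    · exact Or.inr (Or.inr ⟨false, h⟩)
  | succ j ih =>
    intro j₀ j₁ V hj hV
    have hVT : (a + n).choose a ≤ V.card := by
      refine le_trans ?_ hV
      exact Nat.le_mul_of_pos_left _ (hpow _)
    rcases Nat.eq_zero_or_pos j₀ with rfl | h0
    · rcases ramsey (rrun l d) _ a n V rfl hVT with h | h
      · left
        rw [pow_zero, one_mul]
        exact h
      · exact Or.inr (Or.inr ⟨false, h⟩)
    rcases Nat.eq_zero_or_pos j₁ with rfl | h1
    · have hVT' : (n + a).choose n ≤ V.card := by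
        rw [add_comm n a, ← Nat.choose_symm_add]
        exact hVT
      rcases ramsey (rrun l d) _ n a V rfl hVT' with h | h
      · exact Or.inr (Or.inr ⟨true, h⟩)
      · right
        left
        rw [pow_zero, one_mul]
        exact h
    obtain ⟨j₀, rfl⟩ : ∃ j', j₀ = j' + 1 := ⟨j₀ - 1, by omega⟩
    obtain ⟨j₁, rfl⟩ : ∃ j', j₁ = j' + 1 := ⟨j₁ - 1, by omega⟩
    have hcut : 2 * (l.length + 1) * ((2 * W) ^ (j₀ + 1 + j₁) * (a + n).choose a) ≤ V.card := by
      refine le_trans ?_ hV
      have e : (2 * W) ^ (j₀ + 1 + (j₁ + 1)) = 2 * W * (2 * W) ^ (j₀ + 1 + j₁) := by ring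
      rw [e, mul_assoc (2 * W)]
      apply Nat.mul_le_mul_right
      omega
    obtain ⟨X, hX, Y, hY, h1, h2, hlt, c, hc⟩ := split l d V _ hcut
    have e2 : j₀ + (j₁ + 1) = j₀ + 1 + j₁ := by ring
    cases c with
    | true =>
      rcases ih j₀ (j₁ + 1) X (by omega) (by rw [e2]; exact h1) with hx | hx | ⟨c, hx⟩
      · rcases ih j₀ (j₁ + 1) Y (by omega) (by rw [e2]; exact h2) with hy | hy | ⟨c, hy⟩
        · left
          have := Clq.add hx hy hX hY hlt hc
          rw [pow_succ, mul_assoc, mul_comm 2 a, ← mul_assoc, mul_two]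
          exact this
        · exact Or.inr (Or.inl (hy.mono hY))
        · exact Or.inr (Or.inr ⟨c, hy.mono hY⟩)
      · exact Or.inr (Or.inl (hx.mono hX))
      · exact Or.inr (Or.inr ⟨c, hx.mono hX⟩)
    | false =>
      rcases ih (j₀ + 1) j₁ X (by omega) h1 with hx | hx | ⟨c, hx⟩
      · exact Or.inl (hx.mono hX)
      · rcases ih (j₀ + 1) j₁ Y (by omega) h2 with hy | hy | ⟨c, hy⟩
        · exact Or.inl (hy.mono hY)
        · right
          left
          have := Clq.add hx hy hX hY hlt hc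
          rw [pow_succ, mul_assoc, mul_comm 2 a, ← mul_assoc, mul_two]
          exact this
        · exact Or.inr (Or.inr ⟨c, hy.mono hY⟩)
      · exact Or.inr (Or.inr ⟨c, hx.mono hX⟩)

/-- Homogeneous sets for decision lists of rectangles. -/
theorem base (l : List (((ℕ → Bool) × (ℕ → Bool)) × Bool)) (d : Bool) (W a n m : ℕ)
    (hW : l.length + 1 ≤ W) (hn : n ≤ 2 ^ m * a) (V : Finset ℕ)
    (hV : (2 * W) ^ (2 * m) * (a + n).choose a ≤ V.card) : ∃ c, Clq (rrun l d) c n V := by
  rcases pairs l d W a n hW m m V (by rw [← two_mul]; exact hV) with h | h | h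
  · exact ⟨_, h.le hn⟩
  · exact ⟨_, h.le hn⟩
  · exact h

end Pool.Agent.Y424.DL
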