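import Pool.Agent.Y424.DL.Asym

/-!
# Triples, explicit bound
-/

set_option autoImplicit false

namespace Pool.Agent.Y424.DL

open Finset Module
open Pool.Agent.Y424.SP (QProtocol)
open Pool.Agent.TH360.SR (SliceRankLE Homogeneous)

theorem triples (q : ℕ) (hq : 1 ≤ q) : ∃ C : ℕ, ∀ L b w n N : ℕ,
    2 ^ ((C ^ (b + 1) * (L + 1) * (w + 1)) ^ (8 * (Nat.clog 2 n + 1))) ≤ N →
    ∀ (l : List (QProtocol Bool q 2 × Bool)) (d : Bool) (c : Finset ℕ → Bool),
      l.length ≤ L → (∀ p ∈ l, p.1.steps ≤ b ∧ p.1.Width w N) →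
      (∀ x : Fin 3 → ℕ, StrictMono x → (∀ i, x i < N) → colourOf l d x = c (univ.image x)) →
      ∃ S ⊆ range N, S.card = n ∧ Homogeneous 3 c S := by
  refine ⟨2 ^ (8 * q + 4) * (q + 2), fun L b w n N hN l d c hlen hl hc => ?_⟩
  set C := 2 ^ (8 * q + 4) * (q + 2) with hC
  set k := Nat.clog 2 n with hk
  set X := C ^ (b + 1) * (L + 1) * (w + 1) with hX
  have hnk : n ≤ 2 ^ k := Nat.le_pow_clog (by norm_num) n
  have h16 : 16 ≤ C := by
    rw [hC, pow_add]
    have : 1 ≤ 2 ^ (8 * q) := Nat.one_le_two_pow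
    nlinarith
  have hCpos : 1 ≤ C ^ b := Nat.one_le_pow _ _ (by omega)
  have hqb : (q + 2) ^ b ≤ C ^ b := by
    apply Nat.pow_le_pow_left
    rw [hC]
    exact Nat.le_mul_of_pos_left _ (by positivity)
  have h2b : 2 ^ (b * (8 * q + 1)) ≤ C ^ b := by
    rw [mul_comm b, pow_mul]
    apply Nat.pow_le_pow_left
    rw [hC]
    calc 2 ^ (8 * q + 1) ≤ 2 ^ (8 * q + 4) := Nat.pow_le_pow_right (by norm_num) (by omega)
      _ ≤ _ := Nat.le_mul_of_pos_right _ (by omega)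
  have hCX : C ^ (b + 1) = C * C ^ b := by ring
  have hX1 : 16 * (C ^ b * (L + 1) * (w + 1)) ≤ X := by
    rw [hX, hCX]
    calc 16 * (C ^ b * (L + 1) * (w + 1)) ≤ C * (C ^ b * (L + 1) * (w + 1)) :=
          Nat.mul_le_mul_right _ h16
      _ = _ := by ring
  have hXpos : 16 ≤ X := by
    have : 1 ≤ C ^ b * (L + 1) * (w + 1) := Nat.mul_pos (Nat.mul_pos hCpos (by omega)) (by omega)
    omega
  have hXpow : ∀ {i j : ℕ}, i ≤ j → X ^ i ≤ X ^ j := fun h => Nat.pow_le_pow_right (by omega) h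
  -- the parameters
  set W := l.length * 2 ^ (b * (q * 2 ^ (1 + 2) + 1)) with hW
  have hWX : 2 * (W + 1) ≤ X := by
    have e1 : W ≤ L * C ^ b := by
      rw [hW]
      apply Nat.mul_le_mul hlen
      have e : q * 2 ^ (1 + 2) + 1 = 8 * q + 1 := by ring
      rw [e]
      exact h2b
    have e2 : L * C ^ b + 1 ≤ C ^ b * (L + 1) * (w + 1) := by
      calc L * C ^ b + 1 ≤ L * C ^ b + C ^ b := by omega
        _ = C ^ b * (L + 1) := by ring
        _ ≤ _ := Nat.le_mul_of_pos_right _ (by omega)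
    omega
  set m := (L + 1) * (q + 2) ^ b with hm
  have hm1 : 1 ≤ m := Nat.mul_pos (by omega) (by positivity)
  have hmX : 4 * (m * (w + 2)) ≤ X := by
    have e1 : m * (w + 2) ≤ 2 * (C ^ b * (L + 1) * (w + 1)) := by
      calc m * (w + 2) ≤ ((L + 1) * C ^ b) * (2 * (w + 1)) :=
            Nat.mul_le_mul (Nat.mul_le_mul_left _ hqb) (by omega)
        _ = _ := by ring
    omega
  set T := (2 * (W + 1)) ^ (2 * k) * (1 + n).choose 1 with hT
  have hT1 : 1 ≤ T := Nat.mul_pos (by positivity) (Nat.choose_pos (by omega))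
  have hTX : T ≤ X ^ (3 * k + 1) := by
    rw [hT, Nat.choose_one_right]
    have e1 : 1 + n ≤ X ^ (k + 1) := by
      calc 1 + n ≤ 2 ^ k + 2 ^ k := Nat.add_le_add Nat.one_le_two_pow hnk
        _ = 2 ^ (k + 1) := by ring
        _ ≤ _ := Nat.pow_le_pow_left (by omega) _
    calc (2 * (W + 1)) ^ (2 * k) * (1 + n) ≤ X ^ (2 * k) * X ^ (k + 1) :=
          Nat.mul_le_mul (Nat.pow_le_pow_left hWX _) e1
      _ = X ^ (3 * k + 1) := by rw [← pow_add]; ring_nf
  have hBB : BB W T 1 = 2 ^ ((W + 1) * T) := by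
    simp only [BB, pow_zero, mul_one, zero_add]
    rw [← pow_succ', ← pow_mul]
  refine main (b := b) (m := m) (W := W) (a := 1) (j := k) hq l d c (fun p hp => (hl p hp).2)
    (fun p hp => (hl p hp).1) (Nat.mul_le_mul_right _ (by omega)) hm1 hc le_rfl
    (by rw [mul_one]; exact hnk) (BB_pos hT1 _) (le_trans ?_ hN)
  refine (NM_le q m w 2 _ ((W + 1) * T) (by rw [← hT, hBB]) hq hm1).trans ?_
  apply Nat.pow_le_pow_right (by norm_num)
  have hY : (W + 1) * T ≤ X ^ (3 * k + 2) := by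
    calc (W + 1) * T ≤ X * X ^ (3 * k + 1) := Nat.mul_le_mul (by omega) hTX
      _ = _ := by ring
  have hqX : q ≤ X := by
    have : q ≤ C := by
      rw [hC]
      calc q ≤ q + 2 := by omega
        _ ≤ _ := Nat.le_mul_of_pos_left _ (by positivity)
    refine this.trans ?_
    rw [hX, hCX]
    have h1 : 1 ≤ C ^ b * (L + 1) * (w + 1) := Nat.mul_pos (Nat.mul_pos hCpos (by omega)) (by omega)
    calc C ≤ C * (C ^ b * (L + 1) * (w + 1)) := Nat.le_mul_of_pos_right _ h1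
      _ = _ := by ring
  have h1 : q * (m * (w + 2)) ^ (2 + 1) ≤ X ^ 4 := by
    calc q * (m * (w + 2)) ^ (2 + 1) ≤ X * X ^ 3 :=
          Nat.mul_le_mul hqX (Nat.pow_le_pow_left (by omega) _)
      _ = X ^ 4 := by ring
  have h2 : 4 + (W + 1) * T + q * (m * (w + 2)) ^ (2 + 1) ≤ X ^ (3 * k + 5) := by
    have g1 : 4 ≤ X ^ (3 * k + 4) := by
      calc 4 ≤ X ^ 1 := by rw [pow_one]; omega
        _ ≤ _ := hXpow (by omega)
    have g2 : X ^ (3 * k + 2) ≤ X ^ (3 * k + 4) := hXpow (by omega)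
    have g3 : X ^ 4 ≤ X ^ (3 * k + 4) := hXpow (by omega)
    have g4 : X ^ (3 * k + 5) = X * X ^ (3 * k + 4) := by ring
    have g5 : 3 * X ^ (3 * k + 4) ≤ X * X ^ (3 * k + 4) := Nat.mul_le_mul_right _ (by omega)
    omega
  calc (4 + (W + 1) * T + q * (m * (w + 2)) ^ (2 + 1)) * (4 * (m * (w + 2))) ^ (2 + 1) ≤
      X ^ (3 * k + 5) * X ^ 3 := Nat.mul_le_mul h2 (Nat.pow_le_pow_left hmX _)
    _ = X ^ (3 * k + 8) := by rw [← pow_add]
    _ ≤ X ^ (8 * (k + 1)) := hXpow (by omega)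

end Pool.Agent.Y424.DL
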